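import Mathlib

set_option autoImplicit false

namespace Pool.Agent.Lib.MP_16b0c2_al

open FreeGroup

section Cocycle

variable {X V M N : Type*} [AddCommGroup M] [AddCommGroup N] [MulAction (FreeGroup X) V]

/-- A crossed map (cocycle) on the `FreeGroup X`-set `V`. -/
def IsCoc (c : FreeGroup X → V → M) : Prop :=
  ∀ w w' v, c (w * w') v = c w' v + c w (w' • v)

lemma IsCoc.one {c : FreeGroup X → V → M} (hc : IsCoc c) (v : V) : c 1 v = 0 := by
  have := hc 1 1 v
  simpa using this

lemma IsCoc.inv {c : FreeGroup X → V → M} (hc : IsCoc c) (w : FreeGroup X) (v : V) :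
    c w⁻¹ v = - c w (w⁻¹ • v) := by
  have := hc w w⁻¹ v
  rw [mul_inv_cancel, hc.one] at this
  exact eq_neg_of_add_eq_zero_left this.symm

lemma IsCoc.inv' {c : FreeGroup X → V → M} (hc : IsCoc c) (w : FreeGroup X) (v : V) :
    c w⁻¹ (w • v) = - c w v := by
  rw [hc.inv]; simp

/-- Two cocycles which agree on the generators are equal. -/
lemma IsCoc.ext {c d : FreeGroup X → V → M} (hc : IsCoc c) (hd : IsCoc d)
    (h : ∀ x v, c (of x) v = d (of x) v) (w : FreeGroup X) : ∀ v, c w v = d w v := by
  induction w using FreeGroup.induction_on with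
  | C1 => intro v; rw [hc.one, hd.one]
  | of x => intro v; exact h x v
  | inv_of x hx => intro v; rw [hc.inv, hd.inv, hx]
  | mul a b ha hb => intro v; rw [hc, hd, ha, hb]

/-- The skew product permutation attached to a generator. -/
def skew (h : V → X → M) (x : X) : Equiv.Perm (V × M) where
  toFun p := (FreeGroup.of x • p.1, p.2 + h p.1 x)
  invFun p := ((FreeGroup.of x)⁻¹ • p.1, p.2 - h ((FreeGroup.of x)⁻¹ • p.1) x)
  left_inv p := by simp
  right_inv p := by simp

/-- The skew product action. -/
def rho (h : V → X → M) : FreeGroup X →* Equiv.Perm (V × M) := FreeGroup.lift (skew h)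

/-- The cocycle with prescribed values on the generators. -/
def coc (h : V → X → M) (w : FreeGroup X) (v : V) : M := (rho h w (v, 0)).2

lemma rho_apply (h : V → X → M) (w : FreeGroup X) :
    ∀ v m, rho h w (v, m) = (w • v, m + coc h w v) := by
  have key : ∀ w : FreeGroup X, (∀ v m, rho h w (v, m) = (w • v, m + coc h w v)) ↔
      ∃ f : V → M, ∀ v m, rho h w (v, m) = (w • v, m + f v) := by
    intro w
    constructor
    · intro H; exact ⟨_, H⟩
    · rintro ⟨f, hf⟩
      have : ∀ v, coc h w v = f v := by
        intro v; unfold coc; rw [hf]; simp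
      intro v m; rw [hf, this]
  induction w using FreeGroup.induction_on with
  | C1 => rw [key]; exact ⟨fun _ => 0, by intro v m; simp⟩
  | of x =>
    rw [key]
    refine ⟨fun v => h v x, ?_⟩
    intro v m
    simp [rho, skew]
  | inv_of x hx =>
    rw [key]
    refine ⟨fun v => - h ((FreeGroup.of x)⁻¹ • v) x, ?_⟩
    intro v m
    have : rho h (of x)⁻¹ = (skew h x)⁻¹ := by simp [rho]
    rw [this]
    change (skew h x).symm (v, m) = _
    simp [skew, sub_eq_add_neg]
  | mul a b ha hb =>
    rw [key]
    refine ⟨fun v => coc h b v + coc h a (b • v), ?_⟩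
    intro v m
    rw [_root_.map_mul, Equiv.Perm.mul_apply, hb, ha, mul_smul, add_assoc]

lemma isCoc_coc (h : V → X → M) : IsCoc (coc h) := by
  intro w w' v
  have h1 := rho_apply h (w * w') v 0
  rw [_root_.map_mul, Equiv.Perm.mul_apply, rho_apply, rho_apply] at h1
  have := congrArg Prod.snd h1
  simpa using this.symm

lemma coc_of (h : V → X → M) (x : X) (v : V) : coc h (of x) v = h v x := by
  simp [coc, rho, skew]

/-- Cocycles are natural in the coefficients. -/
lemma coc_map (φ : M →+ N) (h : V → X → M) (w : FreeGroup X) (v : V) :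
    φ (coc h w v) = coc (fun v x => φ (h v x)) w v := by
  refine IsCoc.ext (c := fun w v => φ (coc h w v)) (d := coc fun v x => φ (h v x))
    ?_ (isCoc_coc _) ?_ w v
  · intro w w' v
    simp only [isCoc_coc h w w' v, map_add]
  · intro x v
    simp only [coc_of]

/-- A cocycle whose generator values have finite support has finite support. -/
lemma coc_finite (h : V → X → M) (hh : ∀ x, {v | h v x ≠ 0}.Finite) (w : FreeGroup X) :
    {v | coc h w v ≠ 0}.Finite := by
  induction w using FreeGroup.induction_on with
  | C1 => simp [(isCoc_coc h).one]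
  | of x => simpa [coc_of] using hh x
  | inv_of x hx =>
    have : {v | coc h (of x)⁻¹ v ≠ 0} ⊆ (fun v => (of x) • v) '' {v | coc h (of x) v ≠ 0} := by
      intro v hv
      refine ⟨(of x)⁻¹ • v, ?_, by simp⟩
      simp only [Set.mem_ofPred_eq] at hv ⊢
      rw [(isCoc_coc h).inv] at hv
      simpa using hv
    exact (hx.image _).subset this
  | mul a b ha hb =>
    have : {v | coc h (a * b) v ≠ 0} ⊆
        {v | coc h b v ≠ 0} ∪ (fun v => b⁻¹ • v) '' {v | coc h a v ≠ 0} := by
      intro v hv
      simp only [Set.mem_ofPred_eq, Set.mem_union, Set.mem_image] at hv ⊢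
      rw [isCoc_coc h] at hv
      by_cases h1 : coc h b v = 0
      · right
        refine ⟨b • v, ?_, by simp⟩
        rw [h1, zero_add] at hv
        exact hv
      · left; exact h1
    exact (hb.union (ha.image _)).subset this

end Cocycle

section Edge

variable {X V : Type*} [MulAction (FreeGroup X) V]

open Classical in
/-- The indicator of the edge `(u, x)`. -/
noncomputable def delta (u : V) (x : X) : V → X → ℚ := fun v y => if v = u ∧ y = x then 1 else 0

/-- The signed number of crossings of the edge `(u, x)` by the path of `w` which starts in `v`. -/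
noncomputable def cr (u : V) (x : X) : FreeGroup X → V → ℚ := coc (delta u x)

lemma isCoc_cr (u : V) (x : X) : IsCoc (cr u x) := isCoc_coc _

lemma cr_of_self (u : V) (x : X) (v : V) [Decidable (v = u)] :
    cr u x (of x) v = if v = u then 1 else 0 := by
  classical
  simp [cr, coc_of, delta]

lemma cr_of_ne (u : V) {x y : X} (hxy : y ≠ x) (v : V) : cr u x (of y) v = 0 := by
  simp [cr, coc_of, delta, hxy]

lemma cr_finite (u : V) (x : X) (w : FreeGroup X) : {v | cr u x w v ≠ 0}.Finite := by
  classical
  apply coc_finite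
  intro y
  refine (Set.finite_singleton u).subset ?_
  intro v hv
  simp only [delta, Set.mem_ofPred_eq, ne_eq, ite_eq_right_iff, one_ne_zero, imp_false,
    not_not] at hv
  exact hv.1

/-- If all crossing numbers of the path of `w` from `v` vanish, every cocycle with rational values
vanishes at `(w, v)`. -/
lemma coc_eq_zero_of_cr {w : FreeGroup X} {v : V} (H : ∀ u x, cr u x w v = 0)
    (h : V → X → ℚ) : coc h w v = 0 := by
  classical
  -- universal cocycle
  let hu : V → X → (V × X →₀ ℚ) := fun v x => Finsupp.single (v, x) 1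
  have h0 : coc hu w v = 0 := by
    ext ⟨u, x⟩
    have := coc_map (Finsupp.applyAddHom (u, x) : (V × X →₀ ℚ) →+ ℚ) hu w v
    rw [Finsupp.applyAddHom_apply] at this
    rw [this]
    rw [Finsupp.coe_zero, Pi.zero_apply]
    rw [← H u x]
    unfold cr
    congr 1
    funext v' x'
    simp only [Finsupp.applyAddHom_apply, hu, delta, Finsupp.single_apply, Prod.mk.injEq]
  let φ : (V × X →₀ ℚ) →ₗ[ℚ] ℚ := Finsupp.lsum ℚ (fun e : V × X => (LinearMap.lsmul ℚ ℚ (h e.1 e.2)))
  have := coc_map φ.toAddMonoidHom hu w v
  rw [h0, _root_.map_zero] at this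
  rw [this]
  congr 1
  funext v' x'
  simp [φ, hu]

/-- If all crossing numbers of the path of `w` from `v` vanish, then `w` fixes `v`. -/
lemma smul_eq_of_cr {w : FreeGroup X} {v : V} (H : ∀ u x, cr u x w v = 0) : w • v = v := by
  classical
  by_contra hne
  -- use the indicator of `v` as potential
  let p : V → ℚ := fun u => if u = v then 1 else 0
  have hcoc : IsCoc (X := X) (fun (w : FreeGroup X) (u : V) => p (w • u) - p u) := by
    intro a b u
    simp only [mul_smul]
    ring
  have h1 := IsCoc.ext hcoc (isCoc_coc (fun (u : V) (x : X) => p (of x • u) - p u))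
    (by intro x u; rw [coc_of]) w v
  rw [coc_eq_zero_of_cr H] at h1
  simp only [p, hne, if_false, if_true] at h1
  norm_num at h1

end Edge

end Pool.Agent.Lib.MP_16b0c2_al
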