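import Mathlib

set_option autoImplicit false

namespace Pool.Agent.Lib.MP_16b0c2_al

section Growth

variable {V : Type*} (α : Equiv.Perm V) (g cs : V → ℚ) (K : ℚ)

lemma telescope (h : ∀ v, cs v = g (α v) - g v + K) (v : V) (M : ℕ) :
    g ((α ^ M) v) - g v + M * K = ∑ i ∈ Finset.range M, cs ((α ^ i) v) := by
  induction M with
  | zero => simp
  | succ n ih =>
    rw [Finset.sum_range_succ, ← ih, h, pow_succ', Equiv.Perm.mul_apply]
    push_cast
    ring

lemma per_finite (h : ∀ v, cs v = g (α v) - g v + K) (hfin : {v | cs v ≠ 0}.Finite)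
    (hK : K ≠ 0) : {v | ∃ n : ℕ, 0 < n ∧ (α ^ n) v = v}.Finite := by
  classical
  have hsub : {v | ∃ n : ℕ, 0 < n ∧ (α ^ n) v = v} ⊆
      ⋃ u ∈ {v | cs v ≠ 0}, ((fun j : ℕ => (α ^ j) u) ''
        (Set.Iio (Function.minimalPeriod α u))) := by
    rintro v ⟨n, hn, hv⟩
    have h1 := telescope α g cs K h v n
    rw [hv, sub_self, zero_add] at h1
    have h2 : ∑ i ∈ Finset.range n, cs ((α ^ i) v) ≠ 0 := by
      rw [← h1]
      have : (n : ℚ) ≠ 0 := by exact_mod_cast hn.ne'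
      exact mul_ne_zero this hK
    obtain ⟨i, hi, hne⟩ := Finset.exists_ne_zero_of_sum_ne_zero h2
    rw [Finset.mem_range] at hi
    simp only [Set.mem_iUnion]
    refine ⟨(α ^ i) v, hne, ?_⟩
    have hper : (α ^ n) ((α ^ i) v) = (α ^ i) v := by
      rw [← Equiv.Perm.mul_apply, ← pow_add, add_comm, pow_add, Equiv.Perm.mul_apply, hv]
    have hper' : Function.IsPeriodicPt α n ((α ^ i) v) := by
      unfold Function.IsPeriodicPt Function.IsFixedPt
      rw [Equiv.Perm.iterate_eq_pow]; exact hper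
    have hpos : 0 < Function.minimalPeriod α ((α ^ i) v) :=
      hper'.minimalPeriod_pos hn
    refine ⟨(n - i) % Function.minimalPeriod α ((α ^ i) v), Nat.mod_lt _ hpos, ?_⟩
    have h3 := Function.iterate_mod_minimalPeriod_eq (f := α) (x := (α ^ i) v) (n := n - i)
    rw [Equiv.Perm.iterate_eq_pow, Equiv.Perm.iterate_eq_pow] at h3
    change (α ^ ((n - i) % Function.minimalPeriod α ((α ^ i) v))) ((α ^ i) v) = v
    rw [h3, ← Equiv.Perm.mul_apply, ← pow_add, Nat.sub_add_cancel hi.le, hv]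
  refine Set.Finite.subset ?_ hsub
  refine hfin.biUnion ?_
  intro u _
  exact (Set.finite_Iio _).image _

lemma bounded (h : ∀ v, cs v = g (α v) - g v + K) (hfin : {v | cs v ≠ 0}.Finite)
    (v : V) (hv : ∀ n : ℕ, 0 < n → (α ^ n) v ≠ v) (M : ℕ) :
    |g ((α ^ M) v) - g v + M * K| ≤ ∑ u ∈ hfin.toFinset, |cs u| := by
  classical
  rw [telescope α g cs K h]
  refine (Finset.abs_sum_le_sum_abs _ _).trans ?_
  have hinj : Set.InjOn (fun i : ℕ => (α ^ i) v) (Finset.range M : Set ℕ) := by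
    intro i _ j _ hij
    by_contra hne
    wlog hlt : i < j generalizing i j with H
    · exact H (i := j) (j := i) (by assumption) (by assumption) hij.symm (Ne.symm hne)
        (lt_of_le_of_ne (not_lt.mp hlt) (Ne.symm hne))
    · apply hv (j - i) (Nat.sub_pos_of_lt hlt)
      have : (α ^ i) ((α ^ (j - i)) v) = (α ^ i) v := by
        rw [← Equiv.Perm.mul_apply, ← pow_add, Nat.add_sub_cancel' hlt.le]
        exact hij.symm
      exact (α ^ i).injective this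
  rw [← Finset.sum_image (s := Finset.range M) (g := fun i : ℕ => (α ^ i) v)
    (f := fun u => |cs u|) hinj]
  rw [← Finset.sum_filter_ne_zero]
  apply Finset.sum_le_sum_of_subset_of_nonneg
  · intro x hx
    simpa using (Finset.mem_filter.mp hx).2
  · intro i _ _
    exact abs_nonneg _

lemma zpow_inj (v : V) (hv : ∀ n : ℕ, 0 < n → (α ^ n) v ≠ v) :
    Function.Injective (fun i : ℤ => (α ^ i) v) := by
  intro i j hij
  by_contra hne
  wlog hlt : i < j generalizing i j with H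
  · exact H hij.symm (Ne.symm hne) (lt_of_le_of_ne (not_lt.mp hlt) (Ne.symm hne))
  · obtain ⟨k, hk⟩ := Int.eq_ofNat_of_zero_le (sub_nonneg.mpr hlt.le)
    have hk0 : 0 < k := by
      have : (0 : ℤ) < k := by rw [← hk]; linarith
      exact_mod_cast this
    apply hv k hk0
    have hij' : (α ^ i) ((α ^ k) v) = (α ^ i) v := by
      rw [← zpow_natCast, ← Equiv.Perm.mul_apply, ← zpow_add, ← hk]
      have : i + (j - i) = j := by ring
      rw [this]
      exact hij.symm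
    exact (α ^ i).injective hij'

/-- The growth argument. -/
lemma growth [Infinite V] (h : ∀ v, cs v = g (α v) - g v + K) (hfin : {v | cs v ≠ 0}.Finite)
    (htr : ∀ a : V, ∃ ρ : Equiv.Perm V, {v | g (ρ v) ≠ g v}.Finite ∧
      ∀ M : ℕ, (α ^ M) (ρ ((α ^ (-(M : ℤ))) a)) = ρ ((α ^ M) a)) : K = 0 := by
  classical
  by_contra hK
  have hper := per_finite α g cs K h hfin hK
  obtain ⟨a, ha⟩ : ∃ a : V, a ∉ {v | ∃ n : ℕ, 0 < n ∧ (α ^ n) v = v} :=
    hper.exists_notMem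
  have ha' : ∀ n : ℕ, 0 < n → (α ^ n) a ≠ a := by
    intro n hn h2
    exact ha ⟨n, hn, h2⟩
  obtain ⟨ρ, hρ, hcomm⟩ := htr a
  set B := ∑ u ∈ hfin.toFinset, |cs u| with hB
  have hzinj := zpow_inj α a ha'
  -- bad exponents
  have bad1 : {M : ℕ | (α ^ M) a ∈ {v | g (ρ v) ≠ g v}}.Finite := by
    apply hρ.preimage
    intro i _ j _ hij
    have := hzinj (a₁ := (i : ℤ)) (a₂ := (j : ℤ)) (by simpa using hij)
    exact_mod_cast this
  have bad2 : {M : ℕ | (α ^ (-(M : ℤ))) a ∈ {v | g (ρ v) ≠ g v}}.Finite := by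
    apply hρ.preimage
    intro i _ j _ hij
    have := hzinj (a₁ := -(i : ℤ)) (a₂ := -(j : ℤ)) hij
    omega
  have bad3 : {M : ℕ | ρ ((α ^ (-(M : ℤ))) a) ∈ {v | ∃ n : ℕ, 0 < n ∧ (α ^ n) v = v}}.Finite := by
    apply hper.preimage
    intro i _ j _ hij
    have := hzinj (a₁ := -(i : ℤ)) (a₂ := -(j : ℤ)) (ρ.injective hij)
    omega
  obtain ⟨N, hN⟩ := exists_nat_gt (3 * B / |K|)
  obtain ⟨M, hM⟩ : ∃ M : ℕ, M ∉ (({M : ℕ | (α ^ M) a ∈ {v | g (ρ v) ≠ g v}} ∪
      {M : ℕ | (α ^ (-(M : ℤ))) a ∈ {v | g (ρ v) ≠ g v}}) ∪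
      {M : ℕ | ρ ((α ^ (-(M : ℤ))) a) ∈ {v | ∃ n : ℕ, 0 < n ∧ (α ^ n) v = v}}) ∪ Set.Iio N :=
    (((bad1.union bad2).union bad3).union (Set.finite_Iio N)).exists_notMem
  simp only [Set.mem_union, Set.mem_Iio, not_or, not_lt] at hM
  obtain ⟨⟨⟨hM1, hM2⟩, hM3⟩, hM4⟩ := hM
  have e1 : g (ρ ((α ^ M) a)) = g ((α ^ M) a) := by
    by_contra hne; exact hM1 hne
  have e2 : g (ρ ((α ^ (-(M : ℤ))) a)) = g ((α ^ (-(M : ℤ))) a) := by
    by_contra hne; exact hM2 hne
  have hb : ∀ n : ℕ, 0 < n → (α ^ n) (ρ ((α ^ (-(M : ℤ))) a)) ≠ ρ ((α ^ (-(M : ℤ))) a) := by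
    intro n hn h2
    exact hM3 ⟨n, hn, h2⟩
  have hq : ∀ n : ℕ, 0 < n → (α ^ n) ((α ^ (-(M : ℤ))) a) ≠ (α ^ (-(M : ℤ))) a := by
    intro n hn h2
    have : (α ^ (-(M : ℤ))) ((α ^ n) a) = (α ^ (-(M : ℤ))) a := by
      rw [← h2, ← zpow_natCast, ← Equiv.Perm.mul_apply, ← Equiv.Perm.mul_apply,
        ← zpow_add, ← zpow_add, add_comm]
    exact ha' n hn ((α ^ (-(M : ℤ))).injective this)
  have i1 := bounded α g cs K h hfin a ha' M
  have i2 := bounded α g cs K h hfin _ hq M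
  have i3 := bounded α g cs K h hfin _ hb M
  rw [hcomm, e1, e2] at i3
  have e3 : (α ^ M) ((α ^ (-(M : ℤ))) a) = a := by
    rw [← zpow_natCast, ← Equiv.Perm.mul_apply, ← zpow_add]; simp
  rw [e3] at i2
  rw [← hB] at i1 i2 i3
  have hMK : |(M : ℚ) * K| ≤ 3 * B := by
    have : (M : ℚ) * K = (g ((α ^ M) a) - g a + M * K) +
      (g a - g ((α ^ (-(M : ℤ))) a) + M * K) -
      (g ((α ^ M) a) - g ((α ^ (-(M : ℤ))) a) + M * K) := by ring
    rw [this]
    calc _ ≤ |(g ((α ^ M) a) - g a + M * K) +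
      (g a - g ((α ^ (-(M : ℤ))) a) + M * K)| +
      |(g ((α ^ M) a) - g ((α ^ (-(M : ℤ))) a) + M * K)| := abs_sub _ _
      _ ≤ (B + B) + B := by
        gcongr
        exact (abs_add_le _ _).trans (add_le_add i1 i2)
      _ = 3 * B := by ring
  have hKpos : 0 < |K| := abs_pos.mpr hK
  rw [div_lt_iff₀ hKpos] at hN
  rw [abs_mul, Nat.abs_cast] at hMK
  have : (N : ℚ) * |K| ≤ M * |K| := by
    gcongr
  linarith

end Growth

end Pool.Agent.Lib.MP_16b0c2_al
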