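import Mathlib
import Pool.Agent.Lib.MP_16b0c2_al.Cocycle
import Pool.Agent.Lib.MP_16b0c2_al.Growth

set_option autoImplicit false

namespace Pool.Agent.Lib.MP_16b0c2_al

open FreeGroup
open scoped commutatorElement

universe u

section Detect

variable {X : Type u}

/-- The section of the quotient map used to turn homomorphisms into cocycles. -/
noncomputable def sec (S : Subgroup (FreeGroup X)) (v : FreeGroup X ⧸ S) : FreeGroup X :=
  Quotient.out v

lemma mk_sec (S : Subgroup (FreeGroup X)) (v : FreeGroup X ⧸ S) :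
    ((sec S v : FreeGroup X) : FreeGroup X ⧸ S) = v := QuotientGroup.out_eq' v

lemma sec_mem (S : Subgroup (FreeGroup X)) (w : FreeGroup X) (v : FreeGroup X ⧸ S) :
    (sec S (w • v))⁻¹ * (w * sec S v) ∈ S := by
  rw [← QuotientGroup.eq, mk_sec]
  conv_lhs => rw [← mk_sec S v]
  rfl

/-- The `S`-valued cocycle of the section. -/
noncomputable def el (S : Subgroup (FreeGroup X)) (w : FreeGroup X) (v : FreeGroup X ⧸ S) : S :=
  ⟨(sec S (w • v))⁻¹ * (w * sec S v), sec_mem S w v⟩

lemma el_mul (S : Subgroup (FreeGroup X)) (w w' : FreeGroup X) (v : FreeGroup X ⧸ S) :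
    el S (w * w') v = el S w (w' • v) * el S w' v := by
  apply Subtype.ext
  simp only [el, Subgroup.coe_mul, mul_smul]
  group

lemma stab (S : Subgroup (FreeGroup X)) {s : FreeGroup X} (hs : s ∈ S) :
    s • ((1 : FreeGroup X) : FreeGroup X ⧸ S) = ((1 : FreeGroup X) : FreeGroup X ⧸ S) := by
  rw [MulAction.Quotient.smul_coe, smul_eq_mul, mul_one, QuotientGroup.eq, mul_one]
  exact S.inv_mem hs

lemma eq_bot_of_cr (S : Subgroup (FreeGroup X))
    (H : ∀ s ∈ S, ∀ (u : FreeGroup X ⧸ S) (x : X),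
      cr u x s ((1 : FreeGroup X) : FreeGroup X ⧸ S) = 0) : S = ⊥ := by
  classical
  -- every homomorphism to the rationals is trivial
  have hom_trivial : ∀ φ : S →* Multiplicative ℚ, φ = 1 := by
    intro φ
    let c : FreeGroup X → (FreeGroup X ⧸ S) → ℚ := fun w v => (φ (el S w v)).toAdd
    have hc : IsCoc c := by
      intro w w' v
      simp only [c, el_mul, MonoidHom.map_mul, toAdd_mul]
      rw [add_comm]
    have hcc := IsCoc.ext hc (isCoc_coc (fun (v : FreeGroup X ⧸ S) (x : X) => c (of x) v))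
      (by intro x v; rw [coc_of])
    ext s
    have h1 := hcc s.1 ((1 : FreeGroup X) : FreeGroup X ⧸ S)
    rw [coc_eq_zero_of_cr (H s.1 s.2)] at h1
    -- conjugation inside S
    have h0 : sec S ((1 : FreeGroup X) : FreeGroup X ⧸ S) ∈ S := by
      have := mk_sec S ((1 : FreeGroup X) : FreeGroup X ⧸ S)
      rw [QuotientGroup.eq, mul_one] at this
      simpa using S.inv_mem this
    have h2 : el S s.1 ((1 : FreeGroup X) : FreeGroup X ⧸ S) =
        (⟨sec S ((1 : FreeGroup X) : FreeGroup X ⧸ S), h0⟩ : S)⁻¹ *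
          (s * ⟨sec S ((1 : FreeGroup X) : FreeGroup X ⧸ S), h0⟩) := by
      apply Subtype.ext
      simp only [el, Subgroup.coe_mul, InvMemClass.coe_inv, stab S s.2]
    simp only [c] at h1
    rw [h2, MonoidHom.map_mul φ, MonoidHom.map_mul φ, MonoidHom.map_inv φ, toAdd_mul, toAdd_mul,
      toAdd_inv] at h1
    have h3 : (φ s).toAdd = 0 := by linarith
    simpa using h3
  -- the free group S has no generators
  have hempty : IsEmpty (IsFreeGroup.Generators S) := by
    by_contra hne
    rw [not_isEmpty_iff] at hne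
    obtain ⟨a⟩ := hne
    have h1 := hom_trivial (IsFreeGroup.lift (fun _ => Multiplicative.ofAdd (1 : ℚ)))
    have h2 := DFunLike.congr_fun h1 (IsFreeGroup.of a)
    rw [IsFreeGroup.lift_of] at h2
    simp at h2
  rw [Subgroup.eq_bot_iff_forall]
  intro s hs
  have h1 : (IsFreeGroup.toFreeGroup S) ⟨s, hs⟩ = 1 := Subsingleton.elim _ _
  have h2 : (⟨s, hs⟩ : S) = 1 := by
    apply (IsFreeGroup.toFreeGroup S).injective
    rw [h1, _root_.map_one]
  simpa using congrArg Subtype.val h2

end Detect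

section Setup

variable {X : Type u} (R S : Subgroup (FreeGroup X)) [hRn : R.Normal]

lemma comm_le_self (H : Subgroup (FreeGroup X)) : ⁅H, H⁆ ≤ H := by
  rw [Subgroup.commutator_le]
  intro a ha b hb
  rw [commutatorElement_def]
  exact H.mul_mem (H.mul_mem (H.mul_mem ha hb) (H.inv_mem ha)) (H.inv_mem hb)

variable (hc : ⁅R, R⁆ ≤ ⁅S, S⁆)

include hc in
lemma D_fix {d : FreeGroup X} (hd : d ∈ ⁅R, R⁆) (v : FreeGroup X ⧸ S) : d • v = v := by
  induction v using QuotientGroup.induction_on with
  | H f =>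
    rw [MulAction.Quotient.smul_coe, smul_eq_mul, QuotientGroup.eq]
    have h1 : f⁻¹ * d⁻¹ * f⁻¹⁻¹ ∈ ⁅R, R⁆ :=
      (inferInstance : (⁅R, R⁆ : Subgroup (FreeGroup X)).Normal).conj_mem _
        (Subgroup.inv_mem _ hd) _
    have h2 := comm_le_self S (hc h1)
    convert h2 using 1
    group

variable {R S}

lemma coc_S {c : FreeGroup X → (FreeGroup X ⧸ S) → ℚ} (hcc : IsCoc c) {d : FreeGroup X}
    (hd : d ∈ ⁅S, S⁆) : c d ((1 : FreeGroup X) : FreeGroup X ⧸ S) = 0 := by
  let ψ : S →* Multiplicative ℚ :=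
    { toFun := fun s => Multiplicative.ofAdd (c s.1 ((1 : FreeGroup X) : FreeGroup X ⧸ S))
      map_one' := by simp [hcc.one]
      map_mul' := by
        intro a b
        rw [Subgroup.coe_mul, hcc, stab S b.2, ← ofAdd_add, add_comm] }
  have h1 : ⁅S, S⁆ ≤ (ψ.ker).map S.subtype := by
    rw [Subgroup.commutator_le]
    intro a ha b hb
    refine ⟨⁅(⟨a, ha⟩ : S), (⟨b, hb⟩ : S)⁆, ?_, ?_⟩
    · simp only [SetLike.mem_coe, MonoidHom.mem_ker]
      rw [map_commutatorElement, commutatorElement_eq_one_iff_mul_comm, mul_comm]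
    · simp [commutatorElement_def]
  obtain ⟨s, hs, rfl⟩ := h1 hd
  have h2 : ψ s = 1 := hs
  have h3 : (ψ s).toAdd = 0 := by rw [h2]; rfl
  exact h3

include hc in
lemma coc_D {c : FreeGroup X → (FreeGroup X ⧸ S) → ℚ} (hcc : IsCoc c) {d : FreeGroup X}
    (hd : d ∈ ⁅R, R⁆) (v : FreeGroup X ⧸ S) : c d v = 0 := by
  induction v using QuotientGroup.induction_on with
  | H f =>
    have h1 : f⁻¹ * d * f⁻¹⁻¹ ∈ ⁅R, R⁆ :=
      (inferInstance : (⁅R, R⁆ : Subgroup (FreeGroup X)).Normal).conj_mem _ hd _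
    have h2 := coc_S hcc (hc h1)
    have h3 : f • ((1 : FreeGroup X) : FreeGroup X ⧸ S) = (f : FreeGroup X ⧸ S) := by
      rw [MulAction.Quotient.smul_coe, smul_eq_mul, mul_one]
    rw [inv_inv, hcc, hcc, h3, D_fix R S hc hd, ← h3, hcc.inv'] at h2
    rw [← h3]
    linarith

include hc in
lemma coc_comm {c : FreeGroup X → (FreeGroup X ⧸ S) → ℚ} (hcc : IsCoc c) {r r' : FreeGroup X}
    (hr : r ∈ R) (hr' : r' ∈ R) (v : FreeGroup X ⧸ S) : c (r * r') v = c (r' * r) v := by
  have h1 : r * r' = ⁅r, r'⁆ * (r' * r) := by rw [commutatorElement_def]; group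
  rw [h1, hcc, coc_D hc hcc (Subgroup.commutator_mem_commutator hr hr'), add_zero]

variable (hRS : R ⊔ S = ⊤)

include hRS in
lemma trans (v : FreeGroup X ⧸ S) :
    ∃ r ∈ R, r • ((1 : FreeGroup X) : FreeGroup X ⧸ S) = v := by
  induction v using QuotientGroup.induction_on with
  | H f =>
    have hf : f ∈ R ⊔ S := by rw [hRS]; trivial
    rw [← SetLike.mem_coe, Subgroup.normal_mul] at hf
    obtain ⟨r, hr, s, hs, rfl⟩ := hf
    refine ⟨r, hr, ?_⟩
    rw [MulAction.Quotient.smul_coe, smul_eq_mul, mul_one, QuotientGroup.eq]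
    simpa using hs

include hc hRS in
lemma T_fix {t : FreeGroup X} (htR : t ∈ R) (htS : t ∈ S) (v : FreeGroup X ⧸ S) :
    t • v = v := by
  obtain ⟨r, hr, rfl⟩ := trans hRS v
  have h1 : t * r = ⁅t, r⁆ * (r * t) := by rw [commutatorElement_def]; group
  rw [← mul_smul, h1, mul_smul, D_fix R S hc (Subgroup.commutator_mem_commutator htR hr),
    mul_smul, stab S htS]

include hc hRS in
lemma coc_T_const {c : FreeGroup X → (FreeGroup X ⧸ S) → ℚ} (hcc : IsCoc c) {t r : FreeGroup X}
    (htR : t ∈ R) (htS : t ∈ S) (hr : r ∈ R) (v : FreeGroup X ⧸ S) :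
    c t (r • v) = c t v := by
  have h1 := coc_comm hc hcc htR hr v
  rw [hcc, hcc, T_fix hc hRS htR htS] at h1
  linarith

include hc hRS in
lemma coc_T_const' {c : FreeGroup X → (FreeGroup X ⧸ S) → ℚ} (hcc : IsCoc c) {t : FreeGroup X}
    (htR : t ∈ R) (htS : t ∈ S) (v w : FreeGroup X ⧸ S) :
    c t v = c t w := by
  obtain ⟨r, hr, rfl⟩ := trans hRS v
  obtain ⟨r', hr', rfl⟩ := trans hRS w
  rw [coc_T_const hc hRS hcc htR htS hr, coc_T_const hc hRS hcc htR htS hr']

include hRS in
/-- Lemma C: a cocycle which vanishes on `R ∩ S` is cohomologous to a homomorphism which kills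
`R`. -/
lemma potential {c : FreeGroup X → (FreeGroup X ⧸ S) → ℚ} (hcc : IsCoc c)
    (hT : ∀ t ∈ R, t ∈ S → ∀ v, c t v = 0) :
    ∃ (g : (FreeGroup X ⧸ S) → ℚ) (K : FreeGroup X → ℚ),
      (∀ f v, c f v = g (f • v) - g v + K f) ∧ ∀ r ∈ R, K r = 0 := by
  classical
  choose ρ hρR hρ using trans (R := R) (S := S) hRS
  let v₀ : FreeGroup X ⧸ S := ((1 : FreeGroup X) : FreeGroup X ⧸ S)
  let g : (FreeGroup X ⧸ S) → ℚ := fun v => c (ρ v) v₀
  -- value of the potential
  have hg : ∀ r ∈ R, g (r • v₀) = c r v₀ := by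
    intro r hr
    have h1 : r⁻¹ * ρ (r • v₀) ∈ S := by
      have := hρ (r • v₀)
      have e1 : r • v₀ = ((r : FreeGroup X) : FreeGroup X ⧸ S) := by
        change r • ((1 : FreeGroup X) : FreeGroup X ⧸ S) = _
        rw [MulAction.Quotient.smul_coe, smul_eq_mul, mul_one]
      have e2 : ρ (r • v₀) • ((1 : FreeGroup X) : FreeGroup X ⧸ S) =
          ((ρ (r • v₀) : FreeGroup X) : FreeGroup X ⧸ S) := by
        rw [MulAction.Quotient.smul_coe, smul_eq_mul, mul_one]
      rw [← QuotientGroup.eq, ← e1, ← e2, this]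
    have h2 : r⁻¹ * ρ (r • v₀) ∈ R := R.mul_mem (R.inv_mem hr) (hρR _)
    have h3 : ρ (r • v₀) = r * (r⁻¹ * ρ (r • v₀)) := by group
    change c (ρ (r • v₀)) v₀ = c r v₀
    rw [h3, hcc, hT _ h2 h1, zero_add, stab S h1]
  have hgR : ∀ r ∈ R, ∀ v, c r v = g (r • v) - g v := by
    intro r hr v
    obtain ⟨r', hr', rfl⟩ := trans (R := R) (S := S) hRS v
    rw [← mul_smul]
    rw [hg _ hr', hg _ (R.mul_mem hr hr'), hcc]
    ring
  have hconst : ∀ f v, c f v - g (f • v) + g v = c f v₀ - g (f • v₀) + g v₀ := by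
    intro f v
    obtain ⟨r, hr, rfl⟩ := trans (R := R) (S := S) hRS v
    have hr' : f * r * f⁻¹ ∈ R := hRn.conj_mem r hr f
    have h1 : f * r = (f * r * f⁻¹) * f := by group
    have h2 : c (f * r) v₀ = c ((f * r * f⁻¹) * f) v₀ := by rw [← h1]
    rw [hcc, hcc, hgR r hr, hgR _ hr', ← mul_smul, ← h1] at h2
    rw [← mul_smul]
    change c f (r • v₀) - g ((f * r) • v₀) + g (r • v₀) = _
    linarith
  refine ⟨g, fun f => c f v₀ - g (f • v₀) + g v₀, ?_, ?_⟩
  · intro f v
    have := hconst f v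
    linarith
  · intro r hr
    simp only
    rw [hgR r hr]
    ring

end Setup

section Infinite

variable {X : Type u} {R S : Subgroup (FreeGroup X)} [hRn : R.Normal]

lemma infinite_case (hc : ⁅R, R⁆ ≤ ⁅S, S⁆) (hRS : R ⊔ S = ⊤) [Infinite (FreeGroup X ⧸ S)] :
    S = ⊥ := by
  classical
  apply eq_bot_of_cr
  intro s hs u x
  have hcc := isCoc_cr u x
  have hfin := cr_finite u x
  have hT : ∀ t ∈ R, t ∈ S → ∀ v, cr u x t v = 0 := by
    intro t htR htS v
    by_contra hne
    have : {v | cr u x t v ≠ 0} = Set.univ := by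
      ext w
      simp only [Set.mem_ofPred_eq, Set.mem_univ, iff_true]
      rw [coc_T_const' hc hRS hcc htR htS w v]
      exact hne
    have h2 := hfin t
    rw [this] at h2
    exact Set.infinite_univ h2
  obtain ⟨g, K, hgK, hK⟩ := potential (R := R) (S := S) hRS hcc hT
  have hKs : K s = 0 := by
    apply growth (MulAction.toPerm s : Equiv.Perm (FreeGroup X ⧸ S)) g (cr u x s) (K s)
    · intro v
      rw [hgK s v]; rfl
    · exact hfin s
    · intro a
      obtain ⟨r, hr, rfl⟩ := trans (R := R) (S := S) hRS a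
      refine ⟨MulAction.toPerm r, ?_, ?_⟩
      · refine (hfin r).subset ?_
        intro v hv
        simp only [Set.mem_ofPred_eq, MulAction.toPerm_apply, ne_eq] at hv ⊢
        rw [hgK r v, hK r hr]
        intro h0
        apply hv
        linarith
      · intro M
        have hpow : ∀ (M : ℤ), (MulAction.toPerm s : Equiv.Perm (FreeGroup X ⧸ S)) ^ M =
            MulAction.toPerm (s ^ M) := by
          intro M
          have := (map_zpow (MulAction.toPermHom (FreeGroup X) (FreeGroup X ⧸ S)) s M)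
          simpa using this.symm
        rw [← zpow_natCast, hpow, hpow]
        simp only [MulAction.toPerm_apply]
        have hrM : s ^ (M : ℤ) * r * (s ^ (M : ℤ))⁻¹ ∈ R := hRn.conj_mem r hr _
        have h1 : s ^ (M : ℤ) * r * (s ^ (M : ℤ))⁻¹ * r =
            ⁅s ^ (M : ℤ) * r * (s ^ (M : ℤ))⁻¹, r⁆ * (r * (s ^ (M : ℤ) * r * (s ^ (M : ℤ))⁻¹)) := by
          rw [commutatorElement_def]; group
        have h2 : s ^ (M : ℤ) • r • s ^ (-(M : ℤ)) • r • ((1 : FreeGroup X) : FreeGroup X ⧸ S)
            = (s ^ (M : ℤ) * r * (s ^ (M : ℤ))⁻¹ * r) • ((1 : FreeGroup X) : FreeGroup X ⧸ S) := by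
          rw [← mul_smul, ← mul_smul, ← mul_smul, zpow_neg]
        rw [h2, h1, mul_smul, D_fix R S hc (Subgroup.commutator_mem_commutator hrM hr)]
        have h3 : r * (s ^ (M : ℤ) * r * (s ^ (M : ℤ))⁻¹) =
          (r * (s ^ (M : ℤ) * r)) * (s ^ (M : ℤ))⁻¹ := by group
        rw [h3, mul_smul, stab S (S.inv_mem (S.zpow_mem hs _)), mul_smul, mul_smul]
  rw [hgK, hKs, stab S hs]
  ring

end Infinite

section Finite

variable {X : Type u} {R S : Subgroup (FreeGroup X)} [hRn : R.Normal]

/-- averaging -/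
lemma finite_potential (hc : ⁅R, R⁆ ≤ ⁅S, S⁆) (hRS : R ⊔ S = ⊤) [Fintype (FreeGroup X ⧸ S)]
    {c : FreeGroup X → (FreeGroup X ⧸ S) → ℚ} (hcc : IsCoc c) :
    ∃ (g : (FreeGroup X ⧸ S) → ℚ), ∀ f v, c f v = g (f • v) - g v +
      (∑ w, c f w) / (Fintype.card (FreeGroup X ⧸ S)) := by
  classical
  have hn : (Fintype.card (FreeGroup X ⧸ S) : ℚ) ≠ 0 := by
    have : 0 < Fintype.card (FreeGroup X ⧸ S) :=
      Fintype.card_pos_iff.mpr ⟨((1 : FreeGroup X) : FreeGroup X ⧸ S)⟩
    exact_mod_cast this.ne'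
  set n : ℚ := (Fintype.card (FreeGroup X ⧸ S) : ℚ) with hndef
  have hsum : ∀ (f : FreeGroup X) (p : (FreeGroup X ⧸ S) → ℚ), ∑ w, p (f • w) = ∑ w, p w := by
    intro f p
    exact Equiv.sum_comp (MulAction.toPerm f) p
  let c' : FreeGroup X → (FreeGroup X ⧸ S) → ℚ := fun f v => c f v - (∑ w, c f w) / n
  have hc' : IsCoc c' := by
    intro w w' v
    have h1 : ∑ u, c (w * w') u = ∑ u, c w' u + ∑ u, c w u := by
      rw [← hsum w' (c w), ← Finset.sum_add_distrib]
      apply Finset.sum_congr rfl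
      intro u _
      rw [hcc]
    simp only [c']
    rw [h1, hcc]
    ring
  have hT : ∀ t ∈ R, t ∈ S → ∀ v, c' t v = 0 := by
    intro t htR htS v
    simp only [c']
    have h1 : ∑ w, c t w = n * c t v := by
      rw [Finset.sum_congr rfl (fun w _ => coc_T_const' hc hRS hcc htR htS w v)]
      simp [hndef]
    rw [h1]
    field_simp
    ring
  obtain ⟨g, K, hgK, hK⟩ := potential (R := R) (S := S) hRS hc' hT
  refine ⟨g, ?_⟩
  intro f v
  have hKf : K f = 0 := by
    have h1 : ∑ w, c' f w = n * K f := by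
      rw [Finset.sum_congr rfl (fun w _ => hgK f w), Finset.sum_add_distrib,
        Finset.sum_sub_distrib, hsum f g]
      simp [hndef]
    have h2 : ∑ w, c' f w = 0 := by
      simp only [c', Finset.sum_sub_distrib, Finset.sum_const, Finset.card_univ, nsmul_eq_mul]
      rw [← hndef]
      field_simp
      ring
    rw [h2] at h1
    rcases mul_eq_zero.mp h1.symm with h | h
    · exact absurd h hn
    · exact h
  have := hgK f v
  rw [hKf] at this
  simp only [c'] at this
  linarith

/-- In the finite case, a generator different from another one acts trivially. -/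
lemma finite_trivial (hc : ⁅R, R⁆ ≤ ⁅S, S⁆) (hRS : R ⊔ S = ⊤) [Fintype (FreeGroup X ⧸ S)]
    {x y : X} (hxy : y ≠ x) (w : FreeGroup X ⧸ S) : of y • w = w := by
  classical
  have hn : (0 : ℚ) < (Fintype.card (FreeGroup X ⧸ S) : ℚ) := by
    have : 0 < Fintype.card (FreeGroup X ⧸ S) :=
      Fintype.card_pos_iff.mpr ⟨((1 : FreeGroup X) : FreeGroup X ⧸ S)⟩
    exact_mod_cast this
  obtain ⟨g, hg⟩ := finite_potential hc hRS (isCoc_cr w x)
  set n : ℚ := (Fintype.card (FreeGroup X ⧸ S) : ℚ) with hndef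
  have hgy : ∀ v, g (of y • v) = g v := by
    intro v
    have := hg (of y) v
    simp only [cr_of_ne w hxy, Finset.sum_const_zero, zero_div] at this
    linarith
  have hgx : ∀ v, g (of x • v) = g v + (if v = w then 1 else 0) - 1 / n := by
    intro v
    have := hg (of x) v
    simp only [cr_of_self, Finset.sum_ite_eq', Finset.mem_univ, if_true] at this
    linarith
  let α : Equiv.Perm (FreeGroup X ⧸ S) := MulAction.toPerm (of x)
  have hα : ∀ v, α v = of x • v := fun v => rfl
  set p := Function.minimalPeriod α w with hp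
  -- every vertex lies in the cycle of `w`
  have hper : ∀ v, v ∈ Function.periodicPts α := by
    intro v
    exact (Function.Injective.mem_periodicPts α.injective v)
  have hppos : 0 < p := Function.minimalPeriod_pos_of_mem_periodicPts (hper w)
  have hval : ∀ j, 1 ≤ j → j ≤ p → g ((α ^ j) w) = g w + 1 - j / n := by
    intro j hj
    induction j, hj using Nat.le_induction with
    | base =>
      intro _
      rw [pow_one, hα, hgx]
      simp
    | succ j hj ih =>
      intro hjp
      rw [pow_succ', Equiv.Perm.mul_apply, hα, hgx, ih (by omega)]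
      have hne : (α ^ j) w ≠ w := by
        intro h1
        have : Function.IsPeriodicPt α j w := by
          unfold Function.IsPeriodicPt Function.IsFixedPt
          rw [Equiv.Perm.iterate_eq_pow]; exact h1
        have := this.minimalPeriod_le (by omega)
        omega
      rw [if_neg hne]
      push_cast
      ring
  have hall : ∀ v, ∃ j, 1 ≤ j ∧ j ≤ p ∧ v = (α ^ j) w := by
    intro v
    -- the cycle of v meets w
    have h1 : ∃ i, (α ^ i) v = w := by
      by_contra hno
      push Not at hno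
      have hdec : ∀ i : ℕ, g ((α ^ i) v) = g v - i / n := by
        intro i
        induction i with
        | zero => simp
        | succ i ih =>
          rw [pow_succ', Equiv.Perm.mul_apply, hα, hgx, if_neg (hno i), ih]
          push_cast; ring
      obtain ⟨m, hm, hmv⟩ := hper v
      have h2 := hdec m
      have h3 : (α ^ m) v = v := by
        rw [← Equiv.Perm.iterate_eq_pow]; exact hmv
      rw [h3] at h2
      have : (0 : ℚ) < m / n := by
        have : (0 : ℚ) < m := by exact_mod_cast hm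
        positivity
      linarith
    obtain ⟨i, hi⟩ := h1
    -- v = α^(-i) w
    have h2 : v = (α ^ ((p - 1) * i)) w := by
      have hpw : (α ^ (p * i)) w = w := by
        have : Function.IsPeriodicPt α (p * i) w :=
          (Function.isPeriodicPt_minimalPeriod α w).mul_const i
        rw [← Equiv.Perm.iterate_eq_pow]; exact this
      apply (α ^ i).injective
      rw [hi, ← Equiv.Perm.mul_apply, ← pow_add]
      have : i + (p - 1) * i = p * i := by
        obtain ⟨q, hq⟩ : ∃ q, p = q + 1 := ⟨p - 1, by omega⟩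
        rw [hq]; simp; ring
      rw [this, hpw]
    have h3 : ∀ k, (α ^ k) w = (α ^ (k % p)) w := by
      intro k
      have := Function.iterate_mod_minimalPeriod_eq (f := α) (x := w) (n := k)
      rw [Equiv.Perm.iterate_eq_pow, Equiv.Perm.iterate_eq_pow] at this
      exact this.symm
    rw [h3] at h2
    by_cases h0 : ((p - 1) * i) % p = 0
    · refine ⟨p, hppos, le_refl _, ?_⟩
      rw [h2, h0, h3 p, Nat.mod_self]
    · exact ⟨((p - 1) * i) % p, Nat.pos_of_ne_zero h0, (Nat.mod_lt _ hppos).le, h2⟩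
  obtain ⟨j, hj1, hjp, hj⟩ := hall w
  obtain ⟨j', hj'1, hj'p, hj'⟩ := hall (of y • w)
  have e1 := hval j hj1 hjp
  have e2 := hval j' hj'1 hj'p
  rw [← hj] at e1
  rw [← hj', hgy] at e2
  have e3 : (j : ℚ) / n = j' / n := by linarith
  have e4 : (j : ℚ) = j' := by
    field_simp at e3
    exact e3
  have e5 : j = j' := by exact_mod_cast e4
  rw [hj', ← e5, ← hj]

lemma finite_case (hc : ⁅R, R⁆ ≤ ⁅S, S⁆) (hRS : R ⊔ S = ⊤) [Finite (FreeGroup X ⧸ S)]
    (hX : Nontrivial X) : S = ⊤ := by
  classical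
  have := Fintype.ofFinite (FreeGroup X ⧸ S)
  have htriv : ∀ (f : FreeGroup X) (w : FreeGroup X ⧸ S), f • w = w := by
    intro f
    induction f using FreeGroup.induction_on with
    | C1 => intro w; simp
    | of y =>
      intro w
      obtain ⟨x, hx⟩ := exists_ne y
      exact finite_trivial hc hRS hx.symm w
    | inv_of y hy =>
      intro w
      rw [inv_smul_eq_iff, hy]
    | mul a b ha hb => intro w; rw [mul_smul, hb, ha]
  rw [Subgroup.eq_top_iff']
  intro f
  have := htriv f⁻¹ ((1 : FreeGroup X) : FreeGroup X ⧸ S)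
  rw [MulAction.Quotient.smul_coe, smul_eq_mul, mul_one, QuotientGroup.eq, mul_one, inv_inv] at this
  exact this

end Finite

section Comm

variable {Y : Type u}

/-- In a noncyclic free group a normal abelian subgroup is trivial. -/
lemma eq_one_of_comm (hY : Nontrivial Y) (z : FreeGroup Y)
    (hz : ∀ f : FreeGroup Y, z * (f * z * f⁻¹) = (f * z * f⁻¹) * z) : z = 1 := by
  classical
  -- work with the regular action
  have key : ∀ (u : FreeGroup Y) (x : Y) (v : FreeGroup Y), cr u x z v = 0 := by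
    intro u x v
    obtain ⟨y, hyx⟩ := exists_ne x
    have hcc := isCoc_cr (V := FreeGroup Y) u x
    have hfin := cr_finite (V := FreeGroup Y) u x z
    have hyn : ∀ (n : ℕ) (v : FreeGroup Y), cr u x (of y ^ n) v = 0 := by
      intro n
      induction n with
      | zero => intro v; rw [pow_zero, hcc.one]
      | succ n ih => intro v; rw [pow_succ, hcc, ih, cr_of_ne u hyx, add_zero]
    have hyn' : ∀ (n : ℕ) (v : FreeGroup Y), cr u x (of y ^ n)⁻¹ v = 0 := by
      intro n v; rw [hcc.inv, hyn, neg_zero]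
    have hinj : Function.Injective (fun n : ℕ => (of y ^ n : FreeGroup Y)) := by
      intro i j hij
      have := congrArg FreeGroup.norm hij
      simpa [FreeGroup.norm_of_pow] using this
    by_contra hne
    -- the conjugates
    have hrel : ∀ n : ℕ, cr u x z ((of y ^ n)⁻¹ * v) + cr u x z (of y ^ n * z * (of y ^ n)⁻¹ * v) =
        cr u x z v + cr u x z ((of y ^ n)⁻¹ * (z * v)) := by
      intro n
      have h1 : cr u x (z * (of y ^ n * z * (of y ^ n)⁻¹)) v =
        cr u x ((of y ^ n * z * (of y ^ n)⁻¹) * z) v := by rw [hz]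
      have h2 : ∀ v, cr u x (of y ^ n * z * (of y ^ n)⁻¹) v = cr u x z ((of y ^ n)⁻¹ * v) := by
        intro v
        rw [hcc, hcc, hyn, hyn', zero_add, add_zero, smul_eq_mul]
      rw [hcc, hcc (of y ^ n * z * (of y ^ n)⁻¹) z, h2, h2] at h1
      simpa [smul_eq_mul, mul_assoc] using h1
    have bad : ∀ v : FreeGroup Y, {n : ℕ | cr u x z ((of y ^ n)⁻¹ * v) ≠ 0}.Finite := by
      intro v
      have : {n : ℕ | cr u x z ((of y ^ n)⁻¹ * v) ≠ 0} =
        (fun n : ℕ => (of y ^ n)⁻¹ * v) ⁻¹' {v | cr u x z v ≠ 0} := rfl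
      rw [this]
      apply hfin.preimage
      intro i _ j _ hij
      apply hinj
      simpa using hij
    -- infinitely many n with the conjugate in the support
    have hinf : {n : ℕ | cr u x z (of y ^ n * z * (of y ^ n)⁻¹ * v) ≠ 0}.Infinite := by
      have hfin2 := (bad v).union (bad (z * v))
      refine Set.Infinite.mono ?_ hfin2.infinite_compl
      intro n hn
      simp only [Set.mem_compl_iff, Set.mem_union, Set.mem_ofPred_eq, not_or, not_not] at hn
      have := hrel n
      rw [hn.1, hn.2, zero_add, add_zero] at this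
      simp only [Set.mem_ofPred_eq, this]
      exact hne
    -- pigeonhole
    obtain ⟨n, _, m, _, hnm, heq⟩ := hinf.exists_ne_map_eq_of_mapsTo
      (f := fun n : ℕ => of y ^ n * z * (of y ^ n)⁻¹ * v) (t := {v | cr u x z v ≠ 0})
      (fun n hn => hn) hfin
    wlog hlt : n < m generalizing n m with H
    · exact H m (by assumption) n (by assumption) (Ne.symm hnm) heq.symm
        (lt_of_le_of_ne (not_lt.mp hlt) (Ne.symm hnm))
    obtain ⟨k, rfl⟩ := Nat.exists_eq_add_of_lt hlt
    have hk : of y ^ (k + 1) * z = z * of y ^ (k + 1) := by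
      have h1 : of y ^ n * z * (of y ^ n)⁻¹ = of y ^ (n + k + 1) * z * (of y ^ (n + k + 1))⁻¹ := by
        simpa using heq
      have h2 : of y ^ (n + k + 1) = (of y ^ n * of y ^ (k + 1) : FreeGroup Y) := by
        rw [← pow_add]; ring_nf
      rw [h2] at h1
      have h3 : z = of y ^ (k + 1) * z * (of y ^ (k + 1))⁻¹ := by
        have h4 : (of y ^ n)⁻¹ * (of y ^ n * z * (of y ^ n)⁻¹) * of y ^ n =
          (of y ^ n)⁻¹ * (of y ^ n * of y ^ (k + 1) * z * (of y ^ n * of y ^ (k + 1))⁻¹) * of y ^ n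
          := by rw [h1]
        have h5 : (of y ^ n)⁻¹ * (of y ^ n * z * (of y ^ n)⁻¹) * of y ^ n = z := by group
        have h6 : (of y ^ n)⁻¹ * (of y ^ n * of y ^ (k + 1) * z * (of y ^ n * of y ^ (k + 1))⁻¹) *
          of y ^ n = of y ^ (k + 1) * z * (of y ^ (k + 1))⁻¹ := by
          simp only [mul_inv_rev, mul_assoc, inv_mul_cancel_left, inv_mul_cancel, mul_one]
        rw [h5, h6] at h4
        exact h4
      conv_rhs => rw [h3]
      rw [inv_mul_cancel_right]
    have hinv : ∀ v : FreeGroup Y, cr u x z (of y ^ (k + 1) * v) = cr u x z v := by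
      intro v
      have h1 : cr u x (of y ^ (k + 1) * z) v = cr u x (z * of y ^ (k + 1)) v := by rw [hk]
      rw [hcc, hcc z, hyn, hyn, zero_add, add_zero, smul_eq_mul] at h1
      exact h1.symm
    have hinv' : ∀ (i : ℕ), cr u x z ((of y ^ (k + 1)) ^ i * v) = cr u x z v := by
      intro i
      induction i with
      | zero => simp
      | succ i ih => rw [pow_succ', mul_assoc, hinv, ih]
    have : (Set.univ : Set ℕ) ⊆
        (fun i : ℕ => (of y ^ (k + 1)) ^ i * v) ⁻¹' {v | cr u x z v ≠ 0} := by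
      intro i _
      simp only [Set.mem_preimage, Set.mem_ofPred_eq, hinv']
      exact hne
    refine Set.infinite_univ (Set.Finite.subset (hfin.preimage ?_) this)
    intro i _ j _ hij
    have h1 : (of y ^ (k + 1)) ^ i = ((of y ^ (k + 1)) ^ j : FreeGroup Y) := by simpa using hij
    rw [← pow_mul, ← pow_mul] at h1
    have h2 : (k + 1) * i = (k + 1) * j := hinj h1
    exact Nat.eq_of_mul_eq_mul_left (Nat.succ_pos k) h2
  have := smul_eq_of_cr (V := FreeGroup Y) (w := z) (v := 1) (fun u x => key u x 1)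
  simpa [smul_eq_mul] using this

end Comm

end Pool.Agent.Lib.MP_16b0c2_al
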